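import Pool.Agent.J6H99.NC.Stm

/-!
# First-passage percolation: the limit shape is not a polytope
-/

set_option autoImplicit false

open MeasureTheory ProbabilityTheory Filter Topology
open scoped ENNReal

namespace Pool.Agent.J6H23.NC

open Pool.Agent.J6H99.NC

variable {e : ℕ} {q : Par} {F : Measure ℝ} [IsProbabilityMeasure F]

lemma T_integrable (x : V e) : Integrable (fun ω => T q ω 0 x) (PM e F) := by
  refine Integrable.of_bound (measurable_T q 0 x).aestronglyMeasurable (q.b * n1 x)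
    (Eventually.of_forall fun ω => ?_)
  rw [Real.norm_eq_abs, abs_of_nonneg (T_nonneg q ω 0 x)]
  have := T_le_n1 q ω 0 x
  rwa [sub_zero] at this

/-- a linear lower bound for the mean passage time -/
lemma g_lower (hFar : FarB e q F) : ∃ c2 : ℝ, 0 < c2 ∧ ∃ R : ℝ, ∀ x : V e, R ≤ n1 x →
    c2 * n1 x ≤ g q F x := by
  obtain ⟨c1, hc1, h⟩ := hFar
  obtain ⟨C, hC, h⟩ := h 1
  refine ⟨c1 / 2, by linarith, 2 * C, fun x hx => ?_⟩
  set n : ℕ := (n1 x).toNat with hn
  have hnx : ((n : ℕ) : ℤ) = n1 x := Int.toNat_of_nonneg (n1_nonneg x)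
  have hnx' : (n : ℝ) = (n1 x : ℝ) := by exact_mod_cast hnx
  have h1 := h n
  set A : Set (Om e) := {ω | T q ω 0 x < c1 * n1 x} with hA
  have hAm : MeasurableSet A := measurableSet_lt (measurable_T q 0 x) measurable_const
  have h2 : PM e F A ≤ ENNReal.ofReal (C / ((n : ℝ) + 1) ^ 1) := by
    refine (measure_mono ?_).trans h1
    intro ω hω
    exact ⟨x, by rw [hnx], hω⟩
  have hn0 : (0 : ℝ) ≤ n := Nat.cast_nonneg n
  have h3 : C / ((n : ℝ) + 1) ^ 1 ≤ 1 / 2 := by
    rw [pow_one, div_le_div_iff₀ (by linarith) (by norm_num)]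
    rw [← hnx'] at hx
    linarith
  have h4 : (PM e F).real A ≤ 1 / 2 := by
    rw [Measure.real]
    refine ENNReal.toReal_le_of_le_ofReal (by norm_num) (h2.trans (ENNReal.ofReal_le_ofReal h3))
  have h5 : (PM e F).real Aᶜ = 1 - (PM e F).real A := probReal_compl_eq_one_sub hAm
  have hc : (0 : ℝ) ≤ c1 * n1 x := mul_nonneg hc1.le (by exact_mod_cast n1_nonneg x)
  have h6 : ∫ ω, Aᶜ.indicator (fun _ => c1 * (n1 x : ℝ)) ω ∂(PM e F) ≤ g q F x := by
    refine integral_mono ((integrable_const _).indicator hAm.compl) (T_integrable x) fun ω => ?_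
    by_cases hω : ω ∈ A
    · simp only [Set.indicator_of_notMem (show ω ∉ Aᶜ from fun h => h hω)]
      exact T_nonneg q ω 0 x
    · simp only [Set.indicator_of_mem (show ω ∈ Aᶜ from hω)]
      exact not_lt.1 hω
  rw [integral_indicator_const _ hAm.compl, smul_eq_mul, h5] at h6
  have h7 : 1 / 2 ≤ 1 - (PM e F).real A := by linarith
  have h8 := mul_le_mul_of_nonneg_right h7 hc
  linarith

/-- the value at the rounding -/
lemma lf_rnd_ge (c y : E e) (n : ℕ) :
    (n : ℝ) * dt c y - nr c * ((e : ℝ) + 2) ≤ lf c (rnd ((n : ℝ) • y)) := by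
  have h := abs_lf_rnd_sub c ((n : ℝ) • y)
  rw [dt_smul, abs_le] at h
  linarith [h.1]

lemma le_of_asym {c c' y : E e} (h1 : ∀ x : V e, lf c' x ≤ g q F x)
    (h2 : ∀ δ : ℝ, 0 < δ → ∀ᶠ n : ℕ in atTop, g q F (rnd ((n : ℝ) • y)) ≤ n * (dt c y + δ)) :
    dt c' y ≤ dt c y := by
  by_contra hlt
  push Not at hlt
  have hδ : 0 < (dt c' y - dt c y) / 2 := by linarith
  have h3 : Tendsto (fun n : ℕ => (n : ℝ) * ((dt c' y - dt c y) / 2)) atTop atTop :=
    tendsto_natCast_atTop_atTop.atTop_mul_const hδ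
  obtain ⟨n, h4, h5⟩ := ((h2 _ hδ).and (h3.eventually_gt_atTop (nr c' * ((e : ℝ) + 2)))).exists
  have h6 := lf_rnd_ge c' y n
  have h7 := h1 (rnd ((n : ℝ) • y))
  nlinarith

lemma n1_rnd_ge (y : E e) : nr y - ((e : ℝ) + 2) ≤ n1 (rnd y) := by
  rw [← nr_vc]
  have h1 := nr_rnd_sub y
  have h2 := nr_add_le (y - vc (rnd y)) (vc (rnd y))
  rw [sub_add_cancel, nr_sub_comm] at h2
  linarith

lemma pos_of_asym {c2 R : ℝ} (hc2 : 0 < c2) (hR : ∀ x : V e, R ≤ n1 x → c2 * n1 x ≤ g q F x)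
    {c y : E e}
    (h2 : ∀ δ : ℝ, 0 < δ → ∀ᶠ n : ℕ in atTop, g q F (rnd ((n : ℝ) • y)) ≤ n * (dt c y + δ)) :
    c2 * nr y ≤ dt c y := by
  by_contra hlt
  push Not at hlt
  by_cases hy : y = 0
  · subst hy
    simp at hlt
  have hy0 : 0 < nr y := nr_pos hy
  have hδ : 0 < (c2 * nr y - dt c y) / 2 := by linarith
  have h3 : Tendsto (fun n : ℕ => (n : ℝ) * ((c2 * nr y - dt c y) / 2)) atTop atTop :=
    tendsto_natCast_atTop_atTop.atTop_mul_const hδ
  have h4 : Tendsto (fun n : ℕ => (n : ℝ) * nr y) atTop atTop :=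
    tendsto_natCast_atTop_atTop.atTop_mul_const hy0
  obtain ⟨n, h5, h6, h7⟩ := ((h2 _ hδ).and ((h3.eventually_gt_atTop (c2 * ((e : ℝ) + 2))).and
    (h4.eventually_ge_atTop (R + ((e : ℝ) + 2))))).exists
  have h8 := n1_rnd_ge ((n : ℝ) • y)
  rw [nr_smul, Nat.abs_cast] at h8
  have h9 := hR (rnd ((n : ℝ) • y)) (by linarith)
  have h10 := mul_le_mul_of_nonneg_left h8 hc2.le
  nlinarith

/-! ### Polytopes -/

/-- the functional `c` is the largest one of `S` at `y` -/
def Mx (S : Finset (E e)) (y c : E e) : Prop := c ∈ S ∧ ∀ c' ∈ S, dt c' y ≤ dt c y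

/-- an irredundant set of functionals -/
lemma irredundant (S : Finset (E e)) (hS : ∀ y, ∃ c, Mx S y c) :
    ∃ S' : Finset (E e), S' ⊆ S ∧ (∀ y, ∃ c, Mx S' y c) ∧
      (∀ y, ∀ c, Mx S' y c → Mx S y c) ∧
      ∀ c ∈ S', ∃ y, ∀ c' ∈ S', c' ≠ c → dt c' y < dt c y := by
  classical
  -- minimal sets with the maxima of `S`
  have hne : (S.powerset.filter fun S' => ∀ y, ∃ c ∈ S', Mx S y c).Nonempty := by
    refine ⟨S, Finset.mem_filter.2 ⟨Finset.mem_powerset_self S, fun y => ?_⟩⟩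
    obtain ⟨c, hc⟩ := hS y
    exact ⟨c, hc.1, hc⟩
  obtain ⟨S', hS', hmin⟩ := Finset.exists_min_image _ Finset.card hne
  rw [Finset.mem_filter, Finset.mem_powerset] at hS'
  obtain ⟨hsub, hmax⟩ := hS'
  refine ⟨S', hsub, fun y => ?_, fun y c hc => ?_, fun c hc => ?_⟩
  · obtain ⟨c, hc, hc2⟩ := hmax y
    exact ⟨c, hc, fun c' hc' => hc2.2 c' (hsub hc')⟩
  · obtain ⟨c1, hc1, hc2⟩ := hmax y
    exact ⟨hsub hc.1, fun c' hc' => (hc2.2 c' hc').trans (hc.2 c1 hc1)⟩
  · by_contra hno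
    push Not at hno
    have h1 : S'.erase c ∈ S.powerset.filter fun S' => ∀ y, ∃ c ∈ S', Mx S y c := by
      refine Finset.mem_filter.2 ⟨Finset.mem_powerset.2 ((Finset.erase_subset _ _).trans hsub),
        fun y => ?_⟩
      obtain ⟨c1, hc1, hc2⟩ := hmax y
      by_cases h : c1 = c
      · subst h
        obtain ⟨c', hc', hne', hle⟩ := hno y
        exact ⟨c', Finset.mem_erase.2 ⟨hne', hc'⟩, hsub hc', fun c'' hc'' =>
          (hc2.2 c'' hc'').trans hle⟩
      · exact ⟨c1, Finset.mem_erase.2 ⟨h, hc1⟩, hc2⟩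
    have h2 := hmin _ h1
    have h3 := Finset.card_erase_lt_of_mem hc
    omega

/-- a vertex: a point with the largest number of active functionals -/
lemma vertex (S : Finset (E e)) (hS : ∀ y, ∃ c, Mx S y c) {c2 : ℝ} (hc2 : 0 < c2)
    (hpos : ∀ y c, Mx S y c → c2 * nr y ≤ dt c y) :
    ∃ v : E e, (∀ c ∈ S, dt c v ≤ 1) ∧ (∃ c ∈ S, dt c v = 1) ∧
      ∀ w : E e, (∀ c ∈ S, dt c v = 1 → dt c w = 0) → w = 0 := by
  classical
  -- the possible numbers
  let act : E e → Finset (E e) := fun v => S.filter fun c => dt c v = 1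
  let P : ℕ → Prop := fun n => ∃ v : E e, (∀ c ∈ S, dt c v ≤ 1) ∧ (∃ c ∈ S, dt c v = 1) ∧
    (act v).card = n
  have hP0 : ∃ n, n ≤ S.card ∧ P n := by
    obtain ⟨y, hy⟩ : ∃ y : E e, y ≠ 0 := ⟨fun _ => 1, fun h => by
      have := congrFun h 0
      simp at this⟩
    obtain ⟨c, hc⟩ := hS y
    have h1 := hpos y c hc
    have h2 : 0 < dt c y := lt_of_lt_of_le (mul_pos hc2 (nr_pos hy)) h1
    refine ⟨(act ((dt c y)⁻¹ • y)).card, Finset.card_le_card (Finset.filter_subset _ _),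
      (dt c y)⁻¹ • y, fun c' hc' => ?_, ⟨c, hc.1, ?_⟩, rfl⟩
    · rw [dt_smul, inv_mul_le_iff₀ h2, mul_one]
      exact hc.2 c' hc'
    · rw [dt_smul]
      exact inv_mul_cancel₀ h2.ne'
  let n := Nat.findGreatest P S.card
  have hn : P n := by
    obtain ⟨m, hm1, hm2⟩ := hP0
    exact Nat.findGreatest_spec hm1 hm2
  obtain ⟨v, hv1, hv2, hv3⟩ := hn
  refine ⟨v, hv1, hv2, fun w hw => ?_⟩
  by_contra hw0
  obtain ⟨c', hc'⟩ := hS w
  have h1 : 0 < dt c' w := lt_of_lt_of_le (mul_pos hc2 (nr_pos hw0)) (hpos w c' hc')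
  -- the functionals which increase along `w`
  let B := S.filter fun c => 0 < dt c w
  have hB : B.Nonempty := ⟨c', Finset.mem_filter.2 ⟨hc'.1, h1⟩⟩
  obtain ⟨b, hb, hmin⟩ := Finset.exists_min_image B (fun c => (1 - dt c v) / dt c w) hB
  have hbS : b ∈ S := (Finset.mem_filter.1 hb).1
  have hbw : 0 < dt b w := (Finset.mem_filter.1 hb).2
  have hbv : dt b v < 1 := by
    refine lt_of_le_of_ne (hv1 b hbS) fun h => ?_
    rw [hw b hbS h] at hbw
    exact lt_irrefl _ hbw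
  set s := (1 - dt b v) / dt b w with hs
  have hs0 : 0 < s := div_pos (by linarith) hbw
  set v' := v + s • w with hv'
  have hval : ∀ c, dt c v' = dt c v + s * dt c w := fun c => by rw [hv', dt_add, dt_smul]
  have hb1 : dt b v' = 1 := by
    rw [hval, hs, div_mul_cancel₀ _ hbw.ne']
    ring
  have hle : ∀ c ∈ S, dt c v' ≤ 1 := by
    intro c hc
    rw [hval]
    by_cases hcw : 0 < dt c w
    · have h2 := hmin c (Finset.mem_filter.2 ⟨hc, hcw⟩)
      rw [le_div_iff₀ hcw] at h2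
      linarith
    · push Not at hcw
      have := mul_nonpos_of_nonneg_of_nonpos hs0.le hcw
      have := hv1 c hc
      linarith
  have hsub : insert b (act v) ⊆ act v' := by
    intro c hc
    rcases Finset.mem_insert.1 hc with rfl | hc
    · exact Finset.mem_filter.2 ⟨hbS, hb1⟩
    · obtain ⟨h2, h3⟩ := Finset.mem_filter.1 hc
      refine Finset.mem_filter.2 ⟨h2, ?_⟩
      rw [hval, hw c h2 h3, h3]
      ring
  have hnot : b ∉ act v := fun h => by
    have := (Finset.mem_filter.1 h).2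
    linarith
  have hcard : n + 1 ≤ (act v').card := by
    have := Finset.card_le_card hsub
    rw [Finset.card_insert_of_notMem hnot, hv3] at this
    exact this
  have hP' : P (act v').card := ⟨v', hle, ⟨b, hbS, hb1⟩, rfl⟩
  have h4 : (act v').card ≤ n :=
    Nat.le_findGreatest (Finset.card_le_card (Finset.filter_subset _ _)) hP'
  omega

lemma continuous_dt (c : E e) : Continuous (dt c) := by
  unfold dt
  fun_prop

lemma continuous_nr : Continuous (nr : E e → ℝ) := by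
  unfold nr
  fun_prop

lemma norm_le_nr (y : E e) : ‖y‖ ≤ nr y := by
  rw [pi_norm_le_iff_of_nonneg (nr_nonneg y)]
  exact fun i => abs_coord_le y i

/-- compactness: the lateral constant -/
lemma lateral {ι : Type} [Fintype ι] [Nonempty ι] (f : ι → E e) (χ : E e)
    (hpos : ∀ w : E e, dt χ w = 0 → w ≠ 0 → ∃ i, 0 < dt (f i) w) :
    ∃ c0 : ℝ, 0 < c0 ∧ ∀ w : E e, dt χ w = 0 → ∃ i, c0 * nr w ≤ dt (f i) w := by
  let K : Set (E e) := {w | dt χ w = 0 ∧ nr w = 1}
  have hKc : IsCompact K := by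
    refine Metric.isCompact_of_isClosed_isBounded ?_ ?_
    · exact (isClosed_eq (continuous_dt χ) continuous_const).inter
        (isClosed_eq continuous_nr continuous_const)
    · refine (Metric.isBounded_closedBall (x := (0 : E e)) (r := 1)).subset fun w hw => ?_
      rw [mem_closedBall_zero_iff]
      exact (norm_le_nr w).trans hw.2.le
  let φ : E e → ℝ := fun w => Finset.univ.sup' Finset.univ_nonempty fun i => dt (f i) w
  have hφ : Continuous φ :=
    Continuous.finset_sup'_apply Finset.univ_nonempty fun i _ => continuous_dt (f i)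
  have hφ0 : ∀ w ∈ K, 0 < φ w := by
    intro w hw
    have hw0 : w ≠ 0 := by
      rintro rfl
      have := hw.2
      simp at this
    obtain ⟨i, hi⟩ := hpos w hw.1 hw0
    exact lt_of_lt_of_le hi (Finset.le_sup' (fun i => dt (f i) w) (Finset.mem_univ i))
  obtain ⟨c0, hc0, hmin⟩ : ∃ c0 : ℝ, 0 < c0 ∧ ∀ w ∈ K, c0 ≤ φ w := by
    by_cases hK : K.Nonempty
    · obtain ⟨w0, hw0, hm⟩ := hKc.exists_isMinOn hK hφ.continuousOn
      exact ⟨φ w0, hφ0 w0 hw0, fun w hw => hm hw⟩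
    · exact ⟨1, one_pos, fun w hw => absurd ⟨w, hw⟩ hK⟩
  refine ⟨c0, hc0, fun w hw => ?_⟩
  by_cases hw0 : w = 0
  · subst hw0
    obtain ⟨i⟩ := ‹Nonempty ι›
    exact ⟨i, by simp⟩
  · have hn : 0 < nr w := nr_pos hw0
    have hwK : (nr w)⁻¹ • w ∈ K := by
      refine ⟨by rw [dt_smul, hw, mul_zero], ?_⟩
      rw [nr_smul, abs_of_pos (inv_pos.2 hn)]
      exact inv_mul_cancel₀ hn.ne'
    have h1 := hmin _ hwK
    obtain ⟨i, -, hi⟩ := Finset.exists_mem_eq_sup' Finset.univ_nonempty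
      (fun i => dt (f i) ((nr w)⁻¹ • w))
    refine ⟨i, ?_⟩
    have h2 : c0 ≤ dt (f i) ((nr w)⁻¹ • w) := by rw [← hi]; exact h1
    rw [dt_smul, ← div_eq_inv_mul, le_div_iff₀ hn] at h2
    exact h2

/-- MODULE POLY -/
theorem poly : PolyT := by
  classical
  intro e q F _ hFar hCor S hlb hub
  -- maxima
  have hmax : ∀ y, ∃ c, Mx S y c ∧ ∀ δ : ℝ, 0 < δ →
      ∀ᶠ n : ℕ in atTop, g q F (rnd ((n : ℝ) • y)) ≤ n * (dt c y + δ) := by
    intro y
    obtain ⟨c, hc, h⟩ := hub y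
    exact ⟨c, ⟨hc, fun c' hc' => le_of_asym (hlb c' hc') h⟩, h⟩
  have hasym : ∀ y c, Mx S y c → ∀ δ : ℝ, 0 < δ →
      ∀ᶠ n : ℕ in atTop, g q F (rnd ((n : ℝ) • y)) ≤ n * (dt c y + δ) := by
    intro y c hc
    obtain ⟨c', hc', h⟩ := hmax y
    have : dt c y = dt c' y := le_antisymm (hc'.2 c hc.1) (hc.2 c' hc'.1)
    rw [this]
    exact h
  obtain ⟨c2, hc2, R, hR⟩ := g_lower (q := q) (F := F) hFar
  obtain ⟨S', hsub, hS', hSS, hirr⟩ := irredundant S fun y => (hmax y).imp fun c h => h.1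
  have hpos : ∀ y c, Mx S' y c → c2 * nr y ≤ dt c y := fun y c hc =>
    pos_of_asym hc2 hR (hasym y c (hSS y c hc))
  obtain ⟨v, hv1, ⟨b, hb, hbv⟩, hv3⟩ := vertex S' hS' hc2 hpos
  have hbound : ∀ y : E e, (∀ c ∈ S', dt c y ≤ 1) → ∀ δ : ℝ, 0 < δ →
      ∀ᶠ n : ℕ in atTop, g q F (rnd ((n : ℝ) • y)) ≤ n * (1 + δ) := by
    intro y hy δ hδ
    obtain ⟨c, hc⟩ := hS' y
    filter_upwards [hasym y c (hSS y c hc) δ hδ] with n hn
    refine hn.trans (mul_le_mul_of_nonneg_left ?_ (Nat.cast_nonneg n))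
    linarith [hy c hc.1]
  -- the active functionals
  let ι : Type := {c : E e // c ∈ S'.filter fun c => dt c v = 1}
  have hι : ∀ i : ι, i.1 ∈ S' ∧ dt i.1 v = 1 := fun i => Finset.mem_filter.1 i.2
  let b' : ι := ⟨b, Finset.mem_filter.2 ⟨hb, hbv⟩⟩
  have : Nonempty ι := ⟨b'⟩
  have hcard : 0 < (Fintype.card ι : ℝ) := by exact_mod_cast Fintype.card_pos
  let f : ι → E e := fun i => i.1
  obtain ⟨χ, hχ⟩ : ∃ χ : E e, χ = (Fintype.card ι : ℝ)⁻¹ • ∑ j, f j := ⟨_, rfl⟩
  have hχd : ∀ y, dt χ y = (Fintype.card ι : ℝ)⁻¹ * ∑ j, dt (f j) y := fun y => by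
    rw [hχ, smul_dt, sum_dt]
  have hχv : dt χ v = 1 := by
    rw [hχd, Finset.sum_congr rfl fun j _ => (hι j).2]
    simp only [Finset.sum_const, Finset.card_univ, nsmul_eq_mul, mul_one]
    exact inv_mul_cancel₀ hcard.ne'
  -- positivity in the lateral directions
  have hlat : ∀ w : E e, dt χ w = 0 → w ≠ 0 → ∃ i, 0 < dt (f i) w := by
    intro w hw hw0
    by_contra hno
    push Not at hno
    apply hw0
    have hsum : ∑ j, dt (f j) w = 0 := by
      have h1 := hχd w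
      rw [hw] at h1
      rcases mul_eq_zero.1 h1.symm with h | h
      · exact absurd h (inv_ne_zero hcard.ne')
      · exact h
    have h2 := (Finset.sum_eq_zero_iff_of_nonpos fun j _ => hno j).1 hsum
    exact hv3 w fun c hc hcv => h2 ⟨c, Finset.mem_filter.2 ⟨hc, hcv⟩⟩ (Finset.mem_univ _)
  obtain ⟨c0, hc0, hlat⟩ := lateral f χ hlat
  -- at least two active functionals
  have htwo : ∀ i : ι, ∃ j : ι, j ≠ i := by
    intro i
    by_contra hno
    push Not at hno
    have h1 : ∀ z : E e, z = dt i.1 z • v := by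
      intro z
      have h2 := hv3 (z - dt i.1 z • v) fun c hc hcv => by
        have h3 : (⟨c, Finset.mem_filter.2 ⟨hc, hcv⟩⟩ : ι) = i := hno _
        have h4 : c = i.1 := congrArg Subtype.val h3
        rw [dt_sub, dt_smul, h4, (hι i).2]
        ring
      exact sub_eq_zero.1 h2
    have h5 := h1 (Pi.single 0 1)
    have h6 := h1 (Pi.single 1 1)
    have h7 := congrFun h5 0
    have h8 := congrFun h5 1
    have h9 := congrFun h6 0
    have h10 := congrFun h6 1
    have h01 : (1 : Fin (e + 2)) ≠ 0 := by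
      intro h
      have := congrArg Fin.val h
      simp at this
    simp only [Pi.single_eq_same, Pi.smul_apply, smul_eq_mul] at h7 h10
    rw [Pi.single_eq_of_ne h01, Pi.smul_apply, smul_eq_mul] at h8
    rcases mul_eq_zero.1 h8.symm with h | h
    · rw [h, zero_mul] at h7
      exact one_ne_zero h7
    · rw [h, mul_zero] at h10
      exact one_ne_zero h10
  -- the points on the facets
  have hfacet : ∀ i : ι, ∃ y : E e, dt (f i) y = 1 ∧ (∀ c ∈ S', dt c y ≤ 1) ∧ y ≠ v := by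
    intro i
    obtain ⟨y, hy⟩ := hirr i.1 (hι i).1
    have hMx : Mx S' y i.1 := ⟨(hι i).1, fun c' hc' => by
      by_cases h : c' = i.1
      · rw [h]
      · exact (hy c' hc' h).le⟩
    obtain ⟨j, hj⟩ := htwo i
    have hji : j.1 ≠ i.1 := fun h => hj (Subtype.ext h)
    have hy0 : y ≠ 0 := by
      rintro rfl
      have := hy j.1 (hι j).1 hji
      simp at this
    have hp : 0 < dt i.1 y := lt_of_lt_of_le (mul_pos hc2 (nr_pos hy0)) (hpos y i.1 hMx)
    refine ⟨(dt i.1 y)⁻¹ • y, ?_, fun c hc => ?_, fun h => ?_⟩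
    · rw [dt_smul]
      exact inv_mul_cancel₀ hp.ne'
    · rw [dt_smul, inv_mul_le_iff₀ hp, mul_one]
      exact hMx.2 c hc
    · have h1 := hy j.1 (hι j).1 hji
      have h2 : dt j.1 ((dt i.1 y)⁻¹ • y) = 1 := by
        rw [h]
        exact (hι j).2
      rw [dt_smul, inv_mul_eq_iff_eq_mul₀ hp.ne', mul_one] at h2
      linarith
  choose y hy1 hy2 hy3 using hfacet
  refine hCor ι
    { v := v
      f := f
      fv := fun i => (hι i).2
      lb := fun i x => hlb i.1 (hsub (hι i).1) x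
      c0 := c0
      c0_pos := hc0
      lat := fun z => ?_
      u := fun i => y i - v
      fu := fun i => by rw [dt_sub, hy1, (hι i).2, sub_self]
      u_ne := fun i => sub_ne_zero.2 (hy3 i)
      tang := fun i δ hδ => ⟨1, one_pos, fun s hs hs1 => ?_⟩
      ub := hbound v hv1 }
  · rw [← hχ]
    obtain ⟨i, hi⟩ := hlat (z - dt χ z • v) (by rw [dt_sub, dt_smul, hχv]; ring)
    refine ⟨i, hi.trans (le_of_eq ?_)⟩
    rw [dt_sub, dt_smul, (hι i).2]
    ring
  · refine hbound (v + s • (y i - v)) (fun c hc => ?_) (δ * s) (mul_pos hδ hs)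
    rw [dt_add, dt_smul, dt_sub]
    have h1 := hv1 c hc
    have h2 := hy2 i c hc
    nlinarith

end Pool.Agent.J6H23.NC
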